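import Pool.Agent.H23.D2.Adg

/-!
# A closed gradient of an arbitrary covector

`ad_noX`: `ad_noG` for an arbitrary polynomial `Gn y i` with the velocity property of a ball `n`.
-/

set_option autoImplicit false

namespace Pool.END16

open Finset Real MvPolynomial
open Pool.Agent.H49.Ent Pool.Agent.H32.Dense Pool.STK Pool.KA Pool.KSAT Pool.K2S Pool.PB Pool.S6C
open Pool.GEN Pool.CHT Pool.CHX Pool.ISO Pool.D2F Pool.D2Z Pool.D2R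
open Pool.FLF (Fam.sub)
open Pool.PB.Trl (rt rt_mem t_rt)
open Pool.LBT (ThrOf)

variable {m J : ℕ}

/-- **A closed gradient gives `No`**: other first charts `Q`, and a covector `Gn` which has the
velocity property of the ball `n`. -/
theorem ad_noX (m D₁ D D' i : ℕ) (hD : 1 ≤ D) : ∃ C : ℝ, 1 ≤ C ∧ ∀ {S : PCl m}
    {P : List (Fin m) × Fin m → ℝ → ℝ → ℝ} {θ : ℝ} {c : ℕ → Fin m}
    {C₀ a' Eb ηm ζ : ℝ} {o η σ : ℕ → ℝ} {lv : ℕ → ℕ → ℝ} {r Dr N M k₀ n : ℕ} {a w : ℚ}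
    {q₁ s₁ h h₂ e : ℝ}, ThrOf (chsys m θ) S P → TmH S → Set.InjOn c (Set.Iio (r + 1)) → i ≤ r →
    k₀ ≤ N → n ≤ N → o k₀ ≤ w → w ≤ o k₀ + ζ → 0 ≤ w → w ≤ a → a ≤ 1 → w < 1 → e < θ * w →
    0 < h → 0 ≤ h₂ → 0 < ζ → C₀ * ηm ≤ ζ → 0 ≤ q₁ → bet P c i a w + h ≤ 1 →
    Eb + C * ζ + 2 * h₂ ≤ e →
    bet P c i a w + h + C * ζ + 2 * h₂ ≤ lv k₀ i + s₁ + (a - w) →
    bet P c i a w + h + C * ζ + 2 * h₂ ≤ lv n i - (o n - w) + (a - w) →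
    bet P c i a w + h + C * ζ + 2 * h₂ + q₁ ≤ lv k₀ i + 2 * (a - w) → q₁ + C * ζ ≤ a - w →
    (∀ l ≤ i, Eb + lv k₀ l + 2 * (a - w) + C * ζ ≤ 1) →
    (∀ l ≤ i, Eb + lv k₀ l + max s₁ 0 + 2 * q₁ + C * ζ ≤ 1) →
    (∀ j < i, lv k₀ j ≤ lv k₀ i + ζ + h₂ ∨
      bet P c i a w + h ≤ lv k₀ i + (a - w) + ζ + h₂) →
    ∃ δ : ℝ, 0 < δ ∧ Bas S (fun J F A => ∀ (z : ℕ → ℕ → ℕ) (κ : ℝ) (b : ℕ → ℕ → ℝ)
      (B : F.Ω → Prop) (g₀ : ℕ → ℕ → ℕ)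
      (G : ℕ → PtT F → ℕ → MvPolynomial (Option (Fin m)) ℝ)
      (H : ℕ → LnT F → ℕ → MvPolynomial (Option (Fin m)) ℝ) (jq jT W : ℕ),
      WinB F c r D Dr N M C₀ a' Eb ηm o η σ lv b κ z B g₀ G H →
      Sub B A → jq ≤ M → jT ≤ M → (z k₀ jq : ℝ) ≤ q₁ * J →
      ⌊o k₀ * J⌋₊ + z k₀ jT ≤ ⌊(a : ℝ) * J⌋₊ →
      (a : ℝ) * J ≤ ⌊o k₀ * J⌋₊ + z k₀ jT + ζ * J + 2 →
      ⌊o k₀ * J⌋₊ ≤ W → W ≤ ⌊(w : ℝ) * J⌋₊ → W ≤ ⌊o k₀ * J⌋₊ + z k₀ jq →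
      ∀ (B' : F.Ω → Prop) (Q : PtT F → ℕ → MvPolynomial (Option (Fin m)) ℝ)
        (HQ : LnT F → ℕ → MvPolynomial (Option (Fin m)) ℝ) (κQ : F.Ω → ℕ → ℝ)
        (Gn : PtT F → ℕ → MvPolynomial (Option (Fin m)) ℝ)
        (mu : LnT F → ℕ → Polynomial ℝ), Sub B' B →
      ROutB F c r ⌊o k₀ * J⌋₊ ⌊ζ * J⌋₊ (g₀ k₀) B' (G k₀) (H k₀) →
      (∀ y l, DepC c l (Gn y l)) →
      (∀ ω ν, B' ω → B' ν → ptr F J ω = ptr F J ν →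
        |bd F ν (some (c i)) - dd (Gn (ptr F J ω) i) (bt F ω) (bd F ν)| ≤
          2 ^ ⌊ζ * J⌋₊ * 2 ^ ⌊o n * J⌋₊ / 2 ^ g₀ n i) →
      (∀ y l, (Q y l).totalDegree ≤ D') → (∀ y l, DepC c l (Q y l)) →
      (∀ s l, (HQ s l).totalDegree ≤ D') → (∀ s l, DepC c l (HQ s l)) →
      (∀ ω, B' ω → ∀ l ≤ i, Q (ptr F J ω) l = HQ (slam F W ω) l) →
      (∀ ω, B' ω → ∀ l ≤ i, ∀ b, NBx c (G k₀ (ptr F J ω)) (g₀ k₀) ⌊o k₀ * J⌋₊ (F.t ω) l b →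
        |eval b (Q (ptr F J ω) l) + κQ ω l - eval b (G k₀ (ptr F J ω) l)| ≤
          2 ^ ⌊ζ * J⌋₊ / 2 ^ g₀ k₀ l) →
      (∀ s l, (mu s l).natDegree ≤ D₁) →
      (∀ ω, B' ω → ∀ j < i, |gnh F c i (g₀ k₀) Q Gn ω j -
        (mu (slam F W ω) j).eval (rt F W ω)| ≤ 2 ^ ⌊ζ * J⌋₊ / 2 ^ ⌊s₁ * J⌋₊) →
      (∀ ω, B' ω → ∀ j < i, |(mu (slam F W ω) j).eval (rt F W ω)| ≤ 2 ^ ⌊ζ * J⌋₊) →
      (∀ ω ν, B' ω → B' ν → ptr F J ω = ptr F J ν → ∀ j < i,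
        |gnh F c i (g₀ k₀) Q Gn ω j - gnh F c i (g₀ k₀) Q Gn ν j| ≤
          2 ^ ⌊ζ * J⌋₊ / 2 ^ ⌊s₁ * J⌋₊) →
      Pe F.p B' ≤ Real.exp (-(δ * J)) * Pe F.p A) := by
  obtain ⟨C₁, hlin⟩ := adn_linF m D₁ D D' i
  obtain ⟨C', hC', hDC, hcon⟩ := con_no (m := m) (D₁ + D') D i hD
  have hC'R : (1 : ℝ) ≤ C' := by exact_mod_cast hC'
  have hC1R : (0 : ℝ) ≤ C₁ := Nat.cast_nonneg _
  refine ⟨2 * C' + 40 * C₁ + 120, by linarith, ?_⟩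
  intro S P θ c C₀ a' Eb ηm ζ o η σ lv r Dr N M k₀ n a w q₁ s₁ h h₂ e hP hS hc hi hk₀ hn
    how1 how2 hw hwa ha hw1 he hh hh₂ hζ hCη hq₁ hbet hEe h1 h2 h3 h4 h5 h6 hnl
  have hci : Set.InjOn c (Set.Iio (i + 1)) := hc.mono fun y hy => by
    rw [Set.mem_Iio] at hy ⊢
    omega
  obtain ⟨δ, hδ, hbas⟩ := hcon hP hS c hci a w e h ζ hw hwa ha hw1 he hh hζ hbet
  refine ⟨δ, hδ, ?_⟩
  obtain ⟨J₁, hJ₁⟩ := exists_nat_gt (1 / ζ)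
  refine Bas.mono J₁ hbas ?_
  intro J hJ F A hA z κ b B g₀ G H jq jT W hWB hBA hjq hjT hzq hzT1 hzT2 hwW hWw hWq B' Q HQ κQ Gn
    mu hB' hR₀ hPn hvel hQd hQp hHd hHp hQH hQn hmd hcl hsz hsh
  have hJ0 : (0 : ℝ) ≤ J := Nat.cast_nonneg J
  have hζJ : 1 ≤ ζ * J := by
    have : 1 / ζ < J := hJ₁.trans_le (by exact_mod_cast hJ)
    rw [div_lt_iff₀ hζ] at this
    linarith
  -- the unit
  obtain ⟨Y, hY⟩ : ∃ Y : ℕ, Y = ⌊ζ * J⌋₊ + 1 := ⟨_, rfl⟩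
  have hY1 : ζ * J ≤ Y := by
    rw [hY]
    push_cast
    exact (Nat.lt_floor_add_one _).le
  have hY2 : (Y : ℝ) ≤ 2 * (ζ * J) := by
    rw [hY]
    push_cast
    have := Nat.floor_le (by linarith : 0 ≤ ζ * (J : ℝ))
    linarith
  have hYf : ⌊ζ * J⌋₊ ≤ Y := by omega
  have hYp : (2 : ℝ) ^ ⌊ζ * J⌋₊ ≤ 2 ^ Y := pow_le_pow_right₀ (by norm_num) hYf
  have hYone : 1 ≤ Y := by omega
  have hYR : (1 : ℝ) ≤ Y := by exact_mod_cast hYone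
  have hCY : C₀ * (ηm * J) ≤ Y := by
    have : C₀ * (ηm * J) = C₀ * ηm * J := by ring
    rw [this]
    exact (mul_le_mul_of_nonneg_right hCη hJ0).trans hY1
  have hηm0 : 0 ≤ ηm := (hWB.hη k₀ hk₀).1.trans (hWB.hη k₀ hk₀).2
  have hηY : ηm * J ≤ Y := (le_mul_of_one_le_left (mul_nonneg hηm0 hJ0) hWB.C1).trans hCY
  -- the slack
  obtain ⟨x₂, hx₂⟩ : ∃ x₂ : ℕ, x₂ = ⌊h₂ * J⌋₊ + 1 := ⟨_, rfl⟩
  have hx21 : h₂ * J ≤ x₂ := by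
    rw [hx₂]
    push_cast
    exact (Nat.lt_floor_add_one _).le
  have hx22 : (x₂ : ℝ) ≤ h₂ * J + 1 := by
    rw [hx₂]
    push_cast
    linarith [Nat.floor_le (mul_nonneg hh₂ hJ0)]
  -- the times
  have hwR : (0 : ℝ) ≤ w := by exact_mod_cast hw
  have hwaR : (w : ℝ) ≤ a := by exact_mod_cast hwa
  have hw1R : (w : ℝ) < 1 := by exact_mod_cast hw1
  obtain ⟨ho0, -⟩ := hWB.ho k₀ hk₀
  have hmul : ∀ {x y : ℝ}, x ≤ y → x * (J : ℝ) ≤ y * J := fun h =>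
    mul_le_mul_of_nonneg_right h hJ0
  have hfo1 : (⌊o k₀ * J⌋₊ : ℝ) ≤ w * J := (Nat.floor_le (mul_nonneg ho0 hJ0)).trans (hmul how1)
  have hfo2 : (w : ℝ) * J ≤ ⌊o k₀ * J⌋₊ + 1 + ζ * J := by
    have t1 := (Nat.lt_floor_add_one (o k₀ * (J : ℝ))).le
    have t2 := hmul how2
    linarith
  have hfa : (⌊(a : ℝ) * J⌋₊ : ℝ) ≤ a * J := Nat.floor_le (mul_nonneg (hwR.trans hwaR) hJ0)
  obtain ⟨v, hv⟩ : ∃ v : ℕ, v = z k₀ jT := ⟨_, rfl⟩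
  obtain ⟨q, hq⟩ : ∃ q : ℕ, q = z k₀ jq := ⟨_, rfl⟩
  rw [← hv] at hzT1 hzT2
  rw [← hq] at hzq hWq
  have hv1 : ((a : ℝ) - w) * J - 2 * Y - 2 ≤ v := by
    have : (v : ℝ) = v := rfl
    linarith
  have hv2 : (v : ℝ) ≤ (a - w) * J + Y + 1 := by
    have h7 : ((⌊o k₀ * J⌋₊ + v : ℕ) : ℝ) ≤ (⌊(a : ℝ) * J⌋₊ : ℕ) := by exact_mod_cast hzT1
    push_cast at h7
    linarith
  have hΛ : (2 * C' + 40 * C₁ + 120) * ζ * (J : ℝ) ≥ 2 * C' + 10 * (C₁ * (Y + 1)) + 60 * Y := by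
    have e1 : (2 * C' + 40 * C₁ + 120) * ζ * (J : ℝ) =
        2 * C' * (ζ * J) + 10 * (C₁ * (4 * (ζ * J))) + 60 * (2 * (ζ * J)) := by ring
    rw [e1]
    have e2 : 2 * (C' : ℝ) * 1 ≤ 2 * C' * (ζ * J) := mul_le_mul_of_nonneg_left hζJ (by linarith)
    have e3 : (C₁ : ℝ) * (Y + 1) ≤ C₁ * (4 * (ζ * J)) :=
      mul_le_mul_of_nonneg_left (by linarith) (by linarith)
    linarith
  obtain ⟨E₁, hE₁⟩ : ∃ E₁ : ℕ, E₁ = C₁ * (Y + 1) := ⟨_, rfl⟩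
  have hE₁R : (E₁ : ℝ) = C₁ * (Y + 1) := by rw [hE₁]; push_cast; ring
  have hC₁E : (C₁ : ℝ) ≤ E₁ := by rw [hE₁R]; nlinarith
  rw [← hE₁R] at hΛ
  have g1 := hmul h1
  have g2 := hmul h2
  have g3 := hmul h3
  have g4 := hmul h4
  have hqv : q + 2 ≤ v := by
    have h7 : ((q + 2 : ℕ) : ℝ) ≤ (v : ℕ) := by
      push_cast
      linarith
    exact_mod_cast h7
  obtain ⟨nn, hnn⟩ : ∃ nn : ℕ, v = q + nn := ⟨v - q, by omega⟩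
  have hnnR : (q : ℝ) + nn = v := by rw [hnn]; push_cast; ring
  obtain ⟨s, hs⟩ : ∃ s : ℕ, s = ⌊s₁ * J⌋₊ := ⟨_, rfl⟩
  have hs1 : s₁ * J ≤ s + 1 := by rw [hs]; exact (Nat.lt_floor_add_one _).le
  have hs2 : (s : ℝ) ≤ max (s₁ * J) 0 := by
    rw [hs]
    rcases le_or_gt 0 (s₁ * (J : ℝ)) with h7 | h7
    · exact (Nat.floor_le h7).trans (le_max_left _ _)
    · rw [Nat.floor_of_nonpos h7.le, Nat.cast_zero]
      exact le_max_right _ _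
  rw [← hs] at hcl hsh
  obtain ⟨p, hp⟩ : ∃ p : ℕ, p = ⌊(bet P c i a w + h) * J⌋₊ := ⟨_, rfl⟩
  have hβ : 0 ≤ bet P c i a w := (hwR.trans hwaR).trans (hP.low _ _ _ hwR hwaR (by
    exact_mod_cast ha))
  have hpR : (p : ℝ) ≤ (bet P c i a w + h) * J := by
    rw [hp]
    exact Nat.floor_le (mul_nonneg (by linarith) hJ0)
  obtain ⟨hσ1, hσ2⟩ := hWB.hσ k₀ hk₀
  obtain ⟨hη1, hη2⟩ := hWB.hη k₀ hk₀
  have hfE : (⌊(Eb + σ k₀ + η k₀) * J⌋₊ : ℝ) ≤ Eb * J + 2 * Y := by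
    have t1 : (⌊(Eb + σ k₀ + η k₀) * J⌋₊ : ℝ) ≤ (Eb + σ k₀ + η k₀) * J :=
      Nat.floor_le (mul_nonneg (by linarith [hWB.Eb0]) hJ0)
    have t2 : (σ k₀ + η k₀) * (J : ℝ) ≤ (2 * ηm) * J := hmul (by linarith)
    linarith
  -- the sides
  have hgn : ∀ l ≤ r, (lv k₀ l * J - Y - 1 ≤ (⌊b k₀ l * J⌋₊ : ℝ)) ∧
      ((⌊b k₀ l * J⌋₊ : ℝ) ≤ lv k₀ l * J) ∧ (lv k₀ l * J - Y ≤ (g₀ k₀ l : ℝ)) ∧
      ((g₀ k₀ l : ℝ) ≤ lv k₀ l * J) := by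
    intro l hl
    obtain ⟨t1, t2, t3, t4⟩ := hWB.g_num hk₀ hl
    exact ⟨by linarith, t2, by linarith, t4⟩
  have hg12 : ∀ l ≤ r, ⌊b k₀ l * J⌋₊ ≤ g₀ k₀ l + Y ∧ g₀ k₀ l ≤ ⌊b k₀ l * J⌋₊ + 2 * Y := by
    intro l hl
    obtain ⟨t1, t2, t3, t4⟩ := hgn l hl
    constructor
    · have h7 : (⌊b k₀ l * J⌋₊ : ℝ) ≤ ((g₀ k₀ l + Y : ℕ) : ℝ) := by
        push_cast
        linarith
      exact_mod_cast h7
    · have h7 : (g₀ k₀ l : ℝ) ≤ ((⌊b k₀ l * J⌋₊ + 2 * Y : ℕ) : ℝ) := by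
        push_cast
        linarith
      exact_mod_cast h7
  have hWJ : W ≤ J := by
    have h7 : ((W : ℕ) : ℝ) ≤ (J : ℕ) := by
      have t1 : ((W : ℕ) : ℝ) ≤ (⌊(w : ℝ) * J⌋₊ : ℕ) := by exact_mod_cast hWw
      have t2 : (⌊(w : ℝ) * J⌋₊ : ℝ) ≤ w * J := Nat.floor_le (mul_nonneg hwR hJ0)
      have t3 := hmul hw1R.le
      linarith
    exact_mod_cast h7
  have hYs : (2 : ℝ) ^ ⌊ζ * J⌋₊ / 2 ^ s ≤ 2 ^ Y / 2 ^ s :=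
    div_le_div_of_nonneg_right hYp (by positivity)
  obtain ⟨Gp, lam, hL⟩ := hlin mu hc hi (hWB.ev k₀ hk₀) hjq hjT (q := q) (nn := nn) (s := s)
    (Y := Y) (ε₂ := 2 ^ ⌊ζ * J⌋₊ * 2 ^ ⌊o n * J⌋₊ / 2 ^ g₀ n i) (B' := B') (Gn := Gn) (W := W)
    (Q := Q) (HQ := HQ) (κQ := κQ)
    hq.symm (hv.symm.trans hnn) (by omega) hwW hWJ hB' hYf hg12 hR₀
    hPn hvel hQd hQp hHd hHp hQH
    (fun ω hω l hl b hb => (hQn ω hω l hl b hb).trans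
      (div_le_div_of_nonneg_right hYp (by positivity))) hmd
    (fun ω hω j hj => (hcl ω hω j hj).trans hYs)
    (fun ω hω j hj => (hsz ω hω j hj).trans hYp)
    (fun ω ν hω hν hpt j hj => (hsh ω ν hω hν hpt j hj).trans hYs)
    (fun l hl => by
      obtain ⟨-, t2, -, -⟩ := hgn l (by omega)
      have h7 := hmul (h6 l hl)
      have h8 := hmul (h5 l hl)
      have h9 : 0 ≤ Eb * (J : ℝ) := mul_nonneg hWB.Eb0 hJ0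
      have h10 : ((⌊(Eb + σ k₀ + η k₀) * J⌋₊ + (⌊b k₀ l * J⌋₊ + q) + (q + s) + C₁ : ℕ) : ℝ) ≤
          (J : ℕ) := by
        push_cast
        have h11 : max (s₁ * (J : ℝ)) 0 = max s₁ 0 * J := by
          rw [max_mul_of_nonneg _ _ hJ0, zero_mul]
        rw [h11] at hs2
        linarith
      exact_mod_cast h10)
  have hrT := (((hWB.ev k₀ hk₀).rad jT hjT).sub hB')
  rw [← hv, hnn] at hrT
  have hch := chok_win (hrT.mono (show i ≤ r + 1 by omega) (fun _ => le_rfl) le_rfl le_rfl)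
    hwW hWJ
  have hzT1' : ⌊o k₀ * J⌋₊ + (q + nn) ≤ ⌊(a : ℝ) * J⌋₊ := by rw [← hnn]; exact hzT1
  obtain ⟨-, -, hgi1, -⟩ := hgn i hi
  obtain ⟨hbi, -, -, -⟩ := hgn i hi
  obtain ⟨-, -, hgn1, -⟩ := hWB.g_num hn hi
  rw [← hE₁] at hL
  refine hA (⌊o k₀ * J⌋₊ + (q + nn)) W (⌊o k₀ * J⌋₊ + q) nn E₁
    ⌊(Eb + σ k₀ + η k₀) * J⌋₊ (7 * Y + x₂) p (fun _ => D) (fun l => ⌊b k₀ l * J⌋₊ + q)
    (fun l => ⌊b k₀ l * J⌋₊ + (q + nn))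
    (2 ^ E₁ / 2 ^ (g₀ k₀ i + s + q)) (2 ^ ⌊ζ * J⌋₊ * 2 ^ ⌊o n * J⌋₊ / 2 ^ g₀ n i) B'
    (fun y l => Gno (c l) J J (fun y => G k₀ y l) y)
    (fun s l => H k₀ (wlow (W - ⌊o k₀ * J⌋₊) s) l)
    (fun y l => Gno (c l) J J (fun y => G k₀ y l) y)
    (fun s l => Hno (c l) (fun s => H k₀ s l) (wlow (W - ⌊o k₀ * J⌋₊) s)) Gp lam
    (by omega) hzT1' hWw hWq (by omega) (by push_cast; linarith) ?_ (fun _ => hDC) ?_ ?_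
    (by rw [hp]; omega) ?_ ?_ (by positivity) (by positivity) ?_
    (fun ω hω => hBA ω (hB' ω hω)) hch hL
  · -- the exponent
    refine Nat.le_floor ?_
    push_cast
    have := hmul hEe
    linarith
  · -- the thin sides
    intro l hl
    obtain ⟨-, t2, -, -⟩ := hgn l (by omega)
    have h7 := hmul (h5 l hl.le)
    have h8 : 0 ≤ Eb * (J : ℝ) := mul_nonneg hWB.Eb0 hJ0
    have h9 : 0 ≤ ((a : ℝ) - w) * (J : ℝ) := mul_nonneg (by linarith) hJ0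
    have h10 : ((⌊b k₀ l * J⌋₊ + (q + nn) : ℕ) : ℝ) ≤ (J : ℕ) := by
      push_cast
      linarith
    exact_mod_cast h10
  · -- the precision
    have h7 : (p : ℝ) ≤ (J : ℕ) := by
      have := hmul hbet
      linarith
    exact_mod_cast h7
  · -- room
    intro l hl
    obtain ⟨-, t2, -, -⟩ := hgn l (by omega)
    have h7 := hmul (h5 l (by omega))
    have h8 : ((⌊(Eb + σ k₀ + η k₀) * J⌋₊ + (⌊b k₀ l * J⌋₊ + q) + 2 * nn + C' : ℕ) : ℝ) ≤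
        (J : ℕ) := by
      have h9 : (0 : ℝ) ≤ q := Nat.cast_nonneg q
      push_cast
      linarith
    exact_mod_cast h8
  · -- the Lipschitz exponents
    refine nlp_le fun j hj => ?_
    obtain ⟨-, t1, -, -⟩ := hgn j (by omega)
    rcases hnl j hj with h7 | h7
    · left
      have h8 := hmul h7
      have h9 : ((⌊b k₀ j * J⌋₊ + q : ℕ) : ℝ) ≤ ((⌊b k₀ i * J⌋₊ + q + (7 * Y + x₂) : ℕ) : ℝ) := by
        push_cast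
        linarith
      exact_mod_cast h9
    · right
      have h8 := hmul h7
      have h9 : ((⌊b k₀ j * J⌋₊ + q + p : ℕ) : ℝ) ≤
          ((⌊b k₀ i * J⌋₊ + q + (⌊b k₀ j * J⌋₊ + (q + nn)) + (7 * Y + x₂) : ℕ) : ℝ) := by
        have h9 : (0 : ℝ) ≤ q := Nat.cast_nonneg q
        push_cast
        linarith
      exact_mod_cast h9
  · -- the errors
    obtain ⟨x, hx⟩ : ∃ x : ℕ, x = p + (C' + 2 * (E₁ + (7 * Y + x₂))) + 2 := ⟨_, rfl⟩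
    have hpv : (0 : ℝ) ≤ ηm * J := mul_nonneg hηm0 hJ0
    have k1 : x + E₁ ≤ g₀ k₀ i + s + q + nn := by
      have h8 : ((x + E₁ : ℕ) : ℝ) ≤ ((g₀ k₀ i + s + q + nn : ℕ) : ℝ) := by
        rw [hx]
        push_cast
        linarith
      exact_mod_cast h8
    have k2 : x + Y + ⌊o n * J⌋₊ ≤ g₀ n i + (⌊o k₀ * J⌋₊ + q + nn) := by
      have h7 : (⌊o n * J⌋₊ : ℝ) ≤ o n * J := Nat.floor_le (mul_nonneg (hWB.ho n hn).1 hJ0)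
      have h8 : ((x + Y + ⌊o n * J⌋₊ : ℕ) : ℝ) ≤
          ((g₀ n i + (⌊o k₀ * J⌋₊ + q + nn) : ℕ) : ℝ) := by
        rw [hx]
        push_cast
        linarith
      exact_mod_cast h8
    have k3 : x ≤ ⌊b k₀ i * J⌋₊ + q + 2 * nn := by
      have h8 : ((x : ℕ) : ℝ) ≤ ((⌊b k₀ i * J⌋₊ + q + 2 * nn : ℕ) : ℝ) := by
        rw [hx]
        push_cast
        linarith
      exact_mod_cast h8
    have e1 : (2 : ℝ) ^ E₁ / 2 ^ (g₀ k₀ i + s + q) / 2 ^ nn ≤ 1 / 2 ^ x := by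
      rw [div_div, ← pow_add, div_le_div_iff₀ (by positivity) (by positivity), one_mul, ← pow_add]
      exact pow_le_pow_right₀ (by norm_num) (by omega)
    have e2 : (2 : ℝ) ^ ⌊ζ * J⌋₊ * 2 ^ ⌊o n * J⌋₊ / 2 ^ g₀ n i /
        2 ^ (⌊o k₀ * J⌋₊ + q + nn) ≤ 1 / 2 ^ x := by
      rw [div_div, ← pow_add, ← pow_add, div_le_div_iff₀ (by positivity) (by positivity), one_mul,
        ← pow_add]
      exact pow_le_pow_right₀ (by norm_num) (by omega)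
    have e3 : (1 : ℝ) / 2 ^ (⌊b k₀ i * J⌋₊ + q + 2 * nn) ≤ 1 / 2 ^ x := inv_mono k3
    have e4 : (2 : ℝ) ^ (C' + 2 * (E₁ + (7 * Y + x₂))) * (1 / 2 ^ x + 1 / 2 ^ x + 1 / 2 ^ x) ≤
        1 / 2 ^ p := by
      obtain ⟨K, hK⟩ : ∃ K, K = C' + 2 * (E₁ + (7 * Y + x₂)) := ⟨_, rfl⟩
      rw [hx, ← hK]
      have e5 : (2 : ℝ) ^ (p + K + 2) = 2 ^ p * 2 ^ K * 4 := by
        rw [pow_add, pow_add]
        norm_num
      have e6 : (2 : ℝ) ^ K * (1 / 2 ^ (p + K + 2) + 1 / 2 ^ (p + K + 2) +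
          1 / 2 ^ (p + K + 2)) = 3 / 4 * (1 / 2 ^ p) := by
        rw [e5]
        field_simp
        norm_num
      rw [e6]
      have e7 : 0 < (1 : ℝ) / 2 ^ p := by positivity
      linarith
    refine le_trans (mul_le_mul_of_nonneg_left (add_le_add (add_le_add e1 e2) e3)
      (by positivity)) e4


end Pool.END16
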