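import Pool.Agent.H23.D2.Adg

/-!
# A closed gradient given by its numbers

`cvg`: the covector with the natural numbers `gg` over the charts `Q` and the time component `τ`.
`adn_linY`: `adn_linF` for such covectors with the velocity property.
-/

set_option autoImplicit false

namespace Pool.END16

open Finset Real MvPolynomial
open Pool.Agent.H49.Ent Pool.Agent.H32.Dense Pool.STK Pool.KA Pool.KSAT Pool.K2S Pool.PB Pool.S6C
open Pool.GEN Pool.CHT Pool.CHX Pool.ISO Pool.D2F Pool.D2Z Pool.D2R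
open Pool.FLF (Fam.sub)
open Pool.PB.Trl (rt rt_mem t_rt)
open Pool.LBT (ThrOf)

variable {m J : ℕ}

/-- The covector with the natural numbers `g` and the time component `τ`. -/
noncomputable def cvg (c : ℕ → Fin m) (i : ℕ) (g₀ : ℕ → ℕ)
    (Q : ℕ → MvPolynomial (Option (Fin m)) ℝ) (x : Option (Fin m) → ℝ) (g : ℕ → ℝ) (τ : ℝ)
    (V : Option (Fin m) → ℝ) : ℝ :=
  dd (Q i) x V + 1 / 2 ^ g₀ i * ∑ j ∈ range i,
    2 ^ g₀ j * (g j * (V (some (c j)) - dd (Q j) x V)) + τ * V none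

/-- The coefficients of a linear functional. -/
def cvL (f : (Option (Fin m) → ℝ) → ℝ) : Option (Fin m) → ℝ := by
  classical
  exact fun o => f (Pi.single o 1)

theorem cvg_add (c : ℕ → Fin m) (i : ℕ) (g₀ : ℕ → ℕ)
    (Q : ℕ → MvPolynomial (Option (Fin m)) ℝ) (x : Option (Fin m) → ℝ) (g : ℕ → ℝ) (τ : ℝ)
    (V W : Option (Fin m) → ℝ) : cvg c i g₀ Q x g τ (V + W) =
      cvg c i g₀ Q x g τ V + cvg c i g₀ Q x g τ W := by
  unfold cvg
  have h : ∑ j ∈ range i, (2 : ℝ) ^ g₀ j * (g j * ((V + W) (some (c j)) - dd (Q j) x (V + W))) =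
      ∑ j ∈ range i, 2 ^ g₀ j * (g j * (V (some (c j)) - dd (Q j) x V)) +
      ∑ j ∈ range i, 2 ^ g₀ j * (g j * (W (some (c j)) - dd (Q j) x W)) := by
    rw [← Finset.sum_add_distrib]
    refine Finset.sum_congr rfl fun j _ => ?_
    rw [dd_add, Pi.add_apply]
    ring
  rw [h, dd_add, Pi.add_apply]
  ring

theorem cvg_smul (c : ℕ → Fin m) (i : ℕ) (g₀ : ℕ → ℕ)
    (Q : ℕ → MvPolynomial (Option (Fin m)) ℝ) (x : Option (Fin m) → ℝ) (g : ℕ → ℝ) (τ s : ℝ)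
    (V : Option (Fin m) → ℝ) : cvg c i g₀ Q x g τ (s • V) = s * cvg c i g₀ Q x g τ V := by
  unfold cvg
  have h : ∑ j ∈ range i, (2 : ℝ) ^ g₀ j * (g j * ((s • V) (some (c j)) - dd (Q j) x (s • V))) =
      s * ∑ j ∈ range i, 2 ^ g₀ j * (g j * (V (some (c j)) - dd (Q j) x V)) := by
    rw [Finset.mul_sum]
    refine Finset.sum_congr rfl fun j _ => ?_
    rw [dd_smul, Pi.smul_apply, smul_eq_mul]
    ring
  rw [h, dd_smul, Pi.smul_apply, smul_eq_mul]
  ring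

theorem cv_cvg (c : ℕ → Fin m) (i : ℕ) (g₀ : ℕ → ℕ)
    (Q : ℕ → MvPolynomial (Option (Fin m)) ℝ) (x : Option (Fin m) → ℝ) (g : ℕ → ℝ) (τ : ℝ)
    (V : Option (Fin m) → ℝ) : cv (cvL (cvg c i g₀ Q x g τ)) V = cvg c i g₀ Q x g τ V := by
  classical
  have hL : ∀ (S : Finset (Option (Fin m))), cvg c i g₀ Q x g τ
      (∑ o ∈ S, V o • (Pi.single o 1 : Option (Fin m) → ℝ)) =
      ∑ o ∈ S, V o * cvg c i g₀ Q x g τ (Pi.single o 1) := by
    intro S
    induction S using Finset.induction_on with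
    | empty =>
      rw [Finset.sum_empty, Finset.sum_empty]
      have h1 := cvg_smul c i g₀ Q x g τ 0 (0 : Option (Fin m) → ℝ)
      rw [zero_smul, zero_mul] at h1
      exact h1
    | insert a S ha ih => rw [Finset.sum_insert ha, Finset.sum_insert ha, cvg_add, cvg_smul, ih]
  have hV : ∑ o, V o • (Pi.single o 1 : Option (Fin m) → ℝ) = V := by
    funext o
    rw [Finset.sum_apply, Finset.sum_eq_single o]
    · simp
    · intro b _ hb
      simp [Ne.symm hb]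
    · intro h
      exact absurd (Finset.mem_univ _) h
  have h1 := hL Finset.univ
  rw [hV] at h1
  rw [h1]
  unfold cv cvL
  exact Finset.sum_congr rfl fun o _ => by ring

/-- **`LinD` over balls**, from the numbers `gg` of a covector with the velocity property; other
charts over the first window. -/
theorem adn_linY (m D₁ D D' i : ℕ) : ∃ C : ℕ, ∀ {J : ℕ} {F : Fam m J} {c : ℕ → Fin m}
    {r Dr w W q nn s K Y e h M jq jT : ℕ} {z : ℕ → ℕ} {g g₀ : ℕ → ℕ} {κ ε₂ : ℝ}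
    {B B' : F.Ω → Prop} {G Q : PtT F → ℕ → MvPolynomial (Option (Fin m)) ℝ}
    {H HQ : LnT F → ℕ → MvPolynomial (Option (Fin m)) ℝ} {κQ : F.Ω → ℕ → ℝ}
    (gg : F.Ω → ℕ → ℝ) (τ : F.Ω → ℝ) (mu : LnT F → ℕ → Polynomial ℝ),
    Set.InjOn c (Set.Iio (r + 1)) → i ≤ r → EvB F c r D Dr w M z e h g g₀ κ B G H →
    jq ≤ M → jT ≤ M → z jq = q → z jT = q + nn → 1 ≤ nn → w ≤ W → W ≤ J →
    Sub B' B → K ≤ Y → (∀ l ≤ r, g l ≤ g₀ l + Y ∧ g₀ l ≤ g l + 2 * Y) →
    ROutB F c r w K g₀ B' G H →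
    (∀ ω ν, B' ω → B' ν → ptr F J ω = ptr F J ν →
      |bd F ν (some (c i)) - cvg c i g₀ (Q (ptr F J ω)) (bt F ω) (gg ω) (τ ω) (bd F ν)| ≤ ε₂) →
    (∀ y l, (Q y l).totalDegree ≤ D') → (∀ y l, DepC c l (Q y l)) →
    (∀ s l, (HQ s l).totalDegree ≤ D') → (∀ s l, DepC c l (HQ s l)) →
    (∀ ω, B' ω → ∀ l ≤ i, Q (ptr F J ω) l = HQ (slam F W ω) l) →
    (∀ ω, B' ω → ∀ l ≤ i, ∀ b, NBx c (G (ptr F J ω)) g₀ w (F.t ω) l b →
      |eval b (Q (ptr F J ω) l) + κQ ω l - eval b (G (ptr F J ω) l)| ≤ 2 ^ Y / 2 ^ g₀ l) →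
    (∀ s l, (mu s l).natDegree ≤ D₁) →
    (∀ ω, B' ω → ∀ j < i, |gg ω j - (mu (slam F W ω) j).eval (rt F W ω)| ≤
      2 ^ Y / 2 ^ s) →
    (∀ ω, B' ω → ∀ j < i, |(mu (slam F W ω) j).eval (rt F W ω)| ≤ 2 ^ Y) →
    (∀ ω ν, B' ω → B' ν → ptr F J ω = ptr F J ν → ∀ j < i,
      |gg ω j - gg ν j| ≤ 2 ^ Y / 2 ^ s) →
    (∀ l ≤ i, e + (g l + q) + (q + s) + C ≤ J) →
    ∃ (Gp : PtT F → MvPolynomial (Option (Fin m)) ℝ) (lam : LnT F → ℕ → Polynomial ℝ),
      LinD F c i D (D₁ + D') W (w + q) (w + (q + nn)) nn (C * (Y + 1)) e (fun l => g l + q)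
        (fun l => g l + (q + nn)) (2 ^ (C * (Y + 1)) / 2 ^ (g₀ i + s + q)) ε₂ B'
        (fun y l => Gno (c l) J J (fun y => G y l) y) (fun s l => H (wlow (W - w) s) l)
        (fun y l => Gno (c l) J J (fun y => G y l) y) Gp lam := by
  classical
  obtain ⟨C₁, hcell⟩ := near_cell m D D' i
  refine ⟨C₁ + i + 8, ?_⟩
  intro J F c r Dr w W q nn s K Y e h M jq jT z g g₀ κ ε₂ B B' G Q H HQ κQ gg τ mu hc hi hE hjq
    hjT hzq hzT hnn hwW hWJ hB hKY hg hR hvel hQd hQp hHd hHp hQH hQn hmd hcl hsz hsh hJ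
  have hci : Set.InjOn c (Set.Iio i) := hc.mono fun y hy => by
    rw [Set.mem_Iio] at hy ⊢
    omega
  have hci1 : Set.InjOn c (Set.Iio (i + 1)) := hc.mono fun y hy => by
    rw [Set.mem_Iio] at hy ⊢
    omega
  obtain ⟨G', hG'⟩ : ∃ G' : PtT F → ℕ → MvPolynomial (Option (Fin m)) ℝ,
    G' = fun y l => Gno (c l) J J (fun y => G y l) y := ⟨_, rfl⟩
  have hddG : ∀ y l x V, dd (G' y l) x V = dd (G y l) x V := fun y l x V => by
    rw [hG']
    exact dd_Gno (c l) (fun y => G y l) y x V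
  have hnrm : ∀ y (γ : ℕ → ℕ) (a k : ℕ) x V, nrm c (G' y) γ a k x V = nrm c (G y) γ a k x V :=
    fun y γ a k x V => by
      rw [hG']
      exact nrm_Gno c G γ a k y x V
  -- the radii
  have hrq := (hE.rad jq hjq).sub hB
  rw [hzq] at hrq
  have hrT := (hE.rad jT hjT).sub hB
  rw [hzT] at hrT
  rw [← hG'] at hrq hrT
  -- the cell
  obtain ⟨hc1, hc2⟩ := hcell hc hi hE hB hjq hjT (s := s) (Y := Y) hzq
    (show q + 1 ≤ z jT by omega) hg hQd hQp hQn (fun l hl => by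
      have := hJ l hl
      omega)
  have hE0 : (0 : ℝ) ≤ 2 ^ (C₁ * (Y + 1)) := by positivity
  -- the representative
  have hrep : ∀ y : PtT F, ∃ χ : Option (Fin m) → ℝ, (∃ ω, B' ω ∧ ptr F J ω = y) →
      ∃ ω, B' ω ∧ ptr F J ω = y ∧
        χ = cvL (cvg c i g₀ (Q y) (bt F ω) (gg ω) (τ ω)) := by
    intro y
    by_cases hy : ∃ ω, B' ω ∧ ptr F J ω = y
    · obtain ⟨ω, hω, h1⟩ := hy
      exact ⟨cvL (cvg c i g₀ (Q y) (bt F ω) (gg ω) (τ ω)), fun _ => ⟨ω, hω, h1, rfl⟩⟩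
    · exact ⟨0, fun h => absurd h hy⟩
  choose χ hχ using hrep
  -- the closed components
  obtain ⟨lam, hl1, hl2⟩ := nat_lam (F := F) (c := c) (i := i) (D₁ := D₁) (W := W) hci hWJ
    (H := HQ) (D := D') hHd hHp
    (fun s l => Polynomial.C (2 ^ g₀ l / 2 ^ g₀ i : ℝ) * mu s l)
    (fun s l => (Polynomial.natDegree_C_mul_le _ _).trans (hmd s l))
  have hlam : ∀ ω, B' ω → ∀ V : Option (Fin m) → ℝ, V none = 0 →
      ∑ l ∈ range i, (lam (slam F W ω) l).eval (rt F W ω) * V (some (c l)) =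
      dd (Q (ptr F J ω) i) (bt F ω) V + 1 / 2 ^ g₀ i * ∑ l ∈ range i,
        2 ^ g₀ l * ((mu (slam F W ω) l).eval (rt F W ω) *
        (V (some (c l)) - dd (Q (ptr F J ω) l) (bt F ω) V)) := by
    intro ω hω V hV
    rw [← hl2 ω V hV, ← hQH ω hω i le_rfl, Finset.mul_sum]
    congr 1
    refine Finset.sum_congr rfl fun l hl => ?_
    rw [← hQH ω hω l (mem_range.1 hl).le, Polynomial.eval_mul, Polynomial.eval_C]
    ring
  have hpi : (0 : ℝ) < 2 ^ g₀ i := by positivity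
  have hps : (0 : ℝ) < 2 ^ s := by positivity
  -- the sides
  have hconv : ∀ ω (V : Option (Fin m) → ℝ), V none = 0 →
      ∑ l ∈ range i, 2 ^ g₀ l * |V (some (c l)) - dd (G (ptr F J ω) l) (bt F ω) V| ≤
        2 ^ (2 * Y) / 2 ^ q *
        nrm c (G (ptr F J ω)) (fun l => g l + q) (w + q) i (bt F ω) V := by
    intro ω V hV
    rw [← nrm_sp w i (bt F ω) hV]
    exact nrm_conv hV fun l hl => (hg l (by omega)).2
  have hconvQ : ∀ ω, B' ω → ∀ V : Option (Fin m) → ℝ, V none = 0 →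
      ∑ l ∈ range i, 2 ^ g₀ l * |V (some (c l)) - dd (Q (ptr F J ω) l) (bt F ω) V| ≤
        (1 + i * 2 ^ (C₁ * (Y + 1))) * (2 ^ (2 * Y) / 2 ^ q *
        nrm c (G (ptr F J ω)) (fun l => g l + q) (w + q) i (bt F ω) V) := by
    intro ω hω V hV
    have h1 := hconv ω V hV
    have hn0 : nrm c (G (ptr F J ω)) g₀ w i (bt F ω) V ≤ 2 ^ (2 * Y) / 2 ^ q *
        nrm c (G (ptr F J ω)) (fun l => g l + q) (w + q) i (bt F ω) V := by
      rw [nrm_sp w i (bt F ω) hV]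
      exact h1
    have h2 : ∀ l ∈ range i, 2 ^ g₀ l * |V (some (c l)) - dd (Q (ptr F J ω) l) (bt F ω) V| ≤
        2 ^ g₀ l * |V (some (c l)) - dd (G (ptr F J ω) l) (bt F ω) V| +
        2 ^ (C₁ * (Y + 1)) * (2 ^ (2 * Y) / 2 ^ q *
          nrm c (G (ptr F J ω)) (fun l => g l + q) (w + q) i (bt F ω) V) := by
      intro l hl
      rw [mem_range] at hl
      have h3 := hc1 ω hω l hl.le V
      have h4 : nrm c (G (ptr F J ω)) g₀ w l (bt F ω) V ≤ 2 ^ (2 * Y) / 2 ^ q *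
          nrm c (G (ptr F J ω)) (fun l => g l + q) (w + q) i (bt F ω) V :=
        (nrm_mono hl.le _ _).trans hn0
      have e1 : V (some (c l)) - dd (Q (ptr F J ω) l) (bt F ω) V =
          (V (some (c l)) - dd (G (ptr F J ω) l) (bt F ω) V) -
          (dd (Q (ptr F J ω) l) (bt F ω) V - dd (G (ptr F J ω) l) (bt F ω) V) := by ring
      rw [e1]
      refine (mul_le_mul_of_nonneg_left ((abs_sub _ _).trans (add_le_add le_rfl
        (h3.trans (mul_le_mul_of_nonneg_left h4 (by positivity))))) (by positivity)).trans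
        (le_of_eq ?_)
      field_simp
    refine (Finset.sum_le_sum h2).trans ?_
    rw [Finset.sum_add_distrib, Finset.sum_const, card_range, nsmul_eq_mul]
    refine (add_le_add h1 le_rfl).trans (le_of_eq ?_)
    ring
  have hspa : ∀ ω, B' ω → ∀ V : Option (Fin m) → ℝ, V none = 0 →
      |∑ l ∈ range i, (lam (slam F W ω) l).eval (rt F W ω) * V (some (c l)) -
        dd (afp 0 0 (χ (ptr F J ω))) (bt F ω) V| ≤
        2 ^ ((C₁ + i + 8) * (Y + 1)) / 2 ^ (g₀ i + s + q) *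
        nrm c (G (ptr F J ω)) (fun l => g l + q) (w + q) i (bt F ω) V := by
    intro ω hω V hV
    obtain ⟨ω', hω', hpt, hχ'⟩ := hχ (ptr F J ω) ⟨ω, hω, rfl⟩
    rw [dd_afp, hχ', cv_cvg, hlam ω hω V hV]
    obtain ⟨N', hN'⟩ : ∃ N', N' = nrm c (G (ptr F J ω)) (fun l => g l + q) (w + q) i (bt F ω) V :=
      ⟨_, rfl⟩
    have hN0 : 0 ≤ N' := by rw [hN']; exact nrm_nonneg _ _ _ _ _ _ _
    rw [← hN']
    have h2 : cvg c i g₀ (Q (ptr F J ω)) (bt F ω') (gg ω') (τ ω') V =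
        dd (Q (ptr F J ω) i) (bt F ω') V +
        1 / 2 ^ g₀ i * ∑ j ∈ range i, 2 ^ g₀ j * (gg ω' j *
          (V (some (c j)) - dd (Q (ptr F J ω) j) (bt F ω') V)) := by
      unfold cvg
      rw [hV, mul_zero, add_zero]
    rw [h2]
    have e3 : dd (Q (ptr F J ω) i) (bt F ω) V + 1 / 2 ^ g₀ i * ∑ l ∈ range i,
        2 ^ g₀ l * ((mu (slam F W ω) l).eval (rt F W ω) *
        (V (some (c l)) - dd (Q (ptr F J ω) l) (bt F ω) V)) -
        (dd (Q (ptr F J ω) i) (bt F ω') V +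
        1 / 2 ^ g₀ i * ∑ j ∈ range i, 2 ^ g₀ j * (gg ω' j *
          (V (some (c j)) - dd (Q (ptr F J ω) j) (bt F ω') V))) =
        -(dd (Q (ptr F J ω) i) (bt F ω') V - dd (Q (ptr F J ω) i) (bt F ω) V) +
        1 / 2 ^ g₀ i * ∑ j ∈ range i, 2 ^ g₀ j *
          (((mu (slam F W ω) j).eval (rt F W ω) - gg ω' j) *
            (V (some (c j)) - dd (Q (ptr F J ω) j) (bt F ω) V) +
          gg ω' j * (dd (Q (ptr F J ω) j) (bt F ω') V -
            dd (Q (ptr F J ω) j) (bt F ω) V)) := by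
      have e4 : ∑ j ∈ range i, 2 ^ g₀ j *
          (((mu (slam F W ω) j).eval (rt F W ω) - gg ω' j) *
            (V (some (c j)) - dd (Q (ptr F J ω) j) (bt F ω) V) +
          gg ω' j * (dd (Q (ptr F J ω) j) (bt F ω') V -
            dd (Q (ptr F J ω) j) (bt F ω) V)) = ∑ l ∈ range i,
        2 ^ g₀ l * ((mu (slam F W ω) l).eval (rt F W ω) *
        (V (some (c l)) - dd (Q (ptr F J ω) l) (bt F ω) V)) - ∑ j ∈ range i, 2 ^ g₀ j *
          (gg ω' j *
          (V (some (c j)) - dd (Q (ptr F J ω) j) (bt F ω') V)) := by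
        rw [← Finset.sum_sub_distrib]
        exact Finset.sum_congr rfl fun j _ => by ring
      rw [e4]
      ring
    rw [e3]
    have h3 : ∀ j ∈ range i, |2 ^ g₀ j *
          (((mu (slam F W ω) j).eval (rt F W ω) - gg ω' j) *
            (V (some (c j)) - dd (Q (ptr F J ω) j) (bt F ω) V) +
          gg ω' j * (dd (Q (ptr F J ω) j) (bt F ω') V -
            dd (Q (ptr F J ω) j) (bt F ω) V))| ≤
        2 ^ (Y + 1) / 2 ^ s * (2 ^ g₀ j * |V (some (c j)) - dd (Q (ptr F J ω) j) (bt F ω) V|) +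
        2 ^ (Y + 2) * (2 ^ (C₁ * (Y + 1)) / 2 ^ (q + s) * N') := by
      intro j hj
      rw [mem_range] at hj
      have k1 := hcl ω hω j hj
      have k2 := hsz ω hω j hj
      have k3 := hsh ω ω' hω hω' hpt.symm j hj
      have k4 := hc2 ω ω' hω hω' hpt.symm j hj.le V
      rw [← hN'] at k4
      have k5 : |(mu (slam F W ω) j).eval (rt F W ω) - gg ω' j| ≤
          2 ^ (Y + 1) / 2 ^ s := by
        have e1 : (mu (slam F W ω) j).eval (rt F W ω) - gg ω' j =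
            (gg ω j - gg ω' j) -
            (gg ω j - (mu (slam F W ω) j).eval (rt F W ω)) := by ring
        rw [e1]
        refine (abs_sub _ _).trans ((add_le_add k3 k1).trans (le_of_eq ?_))
        rw [pow_succ]
        ring
      have k6 : |gg ω' j| ≤ 2 ^ (Y + 2) := by
        have e1 : gg ω' j = (mu (slam F W ω) j).eval (rt F W ω) -
          ((mu (slam F W ω) j).eval (rt F W ω) - gg ω' j) := by ring
        rw [e1]
        refine (abs_sub _ _).trans ((add_le_add k2 k5).trans ?_)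
        have e2 : (2 : ℝ) ^ (Y + 1) / 2 ^ s ≤ 2 ^ (Y + 1) :=
          div_le_self (by positivity) (one_le_pow₀ (by norm_num))
        have e3 : (2 : ℝ) ^ (Y + 2) = 2 ^ Y * 4 := by rw [pow_add]; norm_num
        have e4 : (2 : ℝ) ^ (Y + 1) = 2 ^ Y * 2 := pow_succ _ _
        have e5 : (0 : ℝ) < 2 ^ Y := by positivity
        rw [e4] at e2
        rw [e3, e4]
        linarith
      rw [abs_mul, abs_of_pos (show (0 : ℝ) < 2 ^ g₀ j by positivity)]
      have k7 : |gg ω' j * (dd (Q (ptr F J ω) j) (bt F ω') V -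
            dd (Q (ptr F J ω) j) (bt F ω) V)| ≤
          2 ^ (Y + 2) * (2 ^ (C₁ * (Y + 1)) / 2 ^ (g₀ j + q + s) * N') := by
        rw [abs_mul]
        exact mul_le_mul k6 k4 (abs_nonneg _) (by positivity)
      have k8 : (2 : ℝ) ^ g₀ j * (2 ^ (Y + 2) * (2 ^ (C₁ * (Y + 1)) / 2 ^ (g₀ j + q + s) * N')) =
          2 ^ (Y + 2) * (2 ^ (C₁ * (Y + 1)) / 2 ^ (q + s) * N') := by
        rw [show g₀ j + q + s = g₀ j + (q + s) by ring, pow_add 2 (g₀ j)]
        field_simp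
      have k9 : |((mu (slam F W ω) j).eval (rt F W ω) - gg ω' j) *
            (V (some (c j)) - dd (Q (ptr F J ω) j) (bt F ω) V)| ≤
          2 ^ (Y + 1) / 2 ^ s * |V (some (c j)) - dd (Q (ptr F J ω) j) (bt F ω) V| := by
        rw [abs_mul]
        exact mul_le_mul_of_nonneg_right k5 (abs_nonneg _)
      calc (2 : ℝ) ^ g₀ j * |((mu (slam F W ω) j).eval (rt F W ω) - gg ω' j) *
            (V (some (c j)) - dd (Q (ptr F J ω) j) (bt F ω) V) +
          gg ω' j * (dd (Q (ptr F J ω) j) (bt F ω') V -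
            dd (Q (ptr F J ω) j) (bt F ω) V)| ≤
          2 ^ g₀ j * (2 ^ (Y + 1) / 2 ^ s * |V (some (c j)) - dd (Q (ptr F J ω) j) (bt F ω) V| +
            2 ^ (Y + 2) * (2 ^ (C₁ * (Y + 1)) / 2 ^ (g₀ j + q + s) * N')) :=
            mul_le_mul_of_nonneg_left ((abs_add_le _ _).trans (add_le_add k9 k7)) (by positivity)
        _ = 2 ^ (Y + 1) / 2 ^ s * (2 ^ g₀ j * |V (some (c j)) - dd (Q (ptr F J ω) j) (bt F ω) V|) +
            2 ^ g₀ j * (2 ^ (Y + 2) * (2 ^ (C₁ * (Y + 1)) / 2 ^ (g₀ j + q + s) * N')) := by ring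
        _ = _ := by rw [k8]
    have h4 : |∑ j ∈ range i, 2 ^ g₀ j *
          (((mu (slam F W ω) j).eval (rt F W ω) - gg ω' j) *
            (V (some (c j)) - dd (Q (ptr F J ω) j) (bt F ω) V) +
          gg ω' j * (dd (Q (ptr F J ω) j) (bt F ω') V -
            dd (Q (ptr F J ω) j) (bt F ω) V))| ≤
        2 ^ (Y + 1) / 2 ^ s * ((1 + i * 2 ^ (C₁ * (Y + 1))) * (2 ^ (2 * Y) / 2 ^ q * N')) +
          i * (2 ^ (Y + 2) * (2 ^ (C₁ * (Y + 1)) / 2 ^ (q + s) * N')) := by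
      refine (Finset.abs_sum_le_sum_abs _ _).trans ((Finset.sum_le_sum h3).trans ?_)
      rw [Finset.sum_add_distrib, ← Finset.mul_sum, Finset.sum_const, card_range, nsmul_eq_mul]
      refine add_le_add (mul_le_mul_of_nonneg_left ?_ (by positivity)) le_rfl
      rw [hN']
      exact hconvQ ω hω V hV
    have h5 := hc2 ω ω' hω hω' hpt.symm i le_rfl V
    rw [← hN'] at h5
    refine (abs_add_le _ _).trans ?_
    rw [abs_neg, abs_mul, abs_of_pos (show (0 : ℝ) < 1 / 2 ^ g₀ i by positivity)]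
    refine (add_le_add h5 (mul_le_mul_of_nonneg_left h4 (by positivity))).trans ?_
    have e5 : (2 : ℝ) ^ (C₁ * (Y + 1)) / 2 ^ (g₀ i + q + s) * N' +
        1 / 2 ^ g₀ i * (2 ^ (Y + 1) / 2 ^ s * ((1 + i * 2 ^ (C₁ * (Y + 1))) *
          (2 ^ (2 * Y) / 2 ^ q * N')) + i * (2 ^ (Y + 2) * (2 ^ (C₁ * (Y + 1)) / 2 ^ (q + s) * N'))) =
        (2 ^ (C₁ * (Y + 1)) + (2 ^ (Y + 1) * ((1 + i * 2 ^ (C₁ * (Y + 1))) * 2 ^ (2 * Y)) +
          i * (2 ^ (Y + 2) * 2 ^ (C₁ * (Y + 1))))) / 2 ^ (g₀ i + s + q) * N' := by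
      rw [show (2 : ℝ) ^ (g₀ i + s + q) = 2 ^ g₀ i * 2 ^ s * 2 ^ q by rw [pow_add, pow_add],
        show (2 : ℝ) ^ (g₀ i + q + s) = 2 ^ g₀ i * 2 ^ q * 2 ^ s by rw [pow_add, pow_add],
        show (2 : ℝ) ^ (q + s) = 2 ^ q * 2 ^ s by rw [pow_add]]
      field_simp
    rw [e5]
    refine mul_le_mul_of_nonneg_right (div_le_div_of_nonneg_right ?_ (by positivity)) hN0
    exact pow_fin C₁ i Y
  have hlnat : ∀ ω, B' ω → ∀ V : Option (Fin m) → ℝ, V none = 0 →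
      |∑ l ∈ range i, (lam (slam F W ω) l).eval (rt F W ω) * V (some (c l)) -
        dd (G (ptr F J ω) i) (bt F ω) V| ≤ 2 ^ ((C₁ + i + 8) * (Y + 1)) / 2 ^ (g i + q) *
        nrm c (G (ptr F J ω)) (fun l => g l + q) (w + q) i (bt F ω) V := by
    intro ω hω V hV
    obtain ⟨N', hN'⟩ : ∃ N', N' = nrm c (G (ptr F J ω)) (fun l => g l + q) (w + q) i (bt F ω) V :=
      ⟨_, rfl⟩
    have hN0 : 0 ≤ N' := by rw [hN']; exact nrm_nonneg _ _ _ _ _ _ _
    rw [hlam ω hω V hV]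
    have h1 : |∑ l ∈ range i, 2 ^ g₀ l * ((mu (slam F W ω) l).eval (rt F W ω) *
        (V (some (c l)) - dd (Q (ptr F J ω) l) (bt F ω) V))| ≤
        2 ^ Y * ((1 + i * 2 ^ (C₁ * (Y + 1))) * (2 ^ (2 * Y) / 2 ^ q * N')) := by
      refine (Finset.abs_sum_le_sum_abs _ _).trans ?_
      have h2 := hconvQ ω hω V hV
      rw [← hN'] at h2
      refine le_trans ?_ (mul_le_mul_of_nonneg_left h2 (by positivity))
      rw [Finset.mul_sum]
      refine Finset.sum_le_sum fun l hl => ?_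
      rw [abs_mul, abs_mul, abs_of_pos (show (0 : ℝ) < 2 ^ g₀ l by positivity)]
      have h3 := hsz ω hω l (mem_range.1 hl)
      calc (2 : ℝ) ^ g₀ l * (|(mu (slam F W ω) l).eval (rt F W ω)| *
            |V (some (c l)) - dd (Q (ptr F J ω) l) (bt F ω) V|) ≤
          2 ^ g₀ l * (2 ^ Y * |V (some (c l)) - dd (Q (ptr F J ω) l) (bt F ω) V|) :=
            mul_le_mul_of_nonneg_left (mul_le_mul_of_nonneg_right h3 (abs_nonneg _))
              (by positivity)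
        _ = _ := by ring
    have h2 := hc1 ω hω i le_rfl V
    have h3 : nrm c (G (ptr F J ω)) g₀ w i (bt F ω) V ≤ 2 ^ (2 * Y) / 2 ^ q * N' := by
      rw [nrm_sp w i (bt F ω) hV, hN']
      exact hconv ω V hV
    have e0 : dd (Q (ptr F J ω) i) (bt F ω) V + 1 / 2 ^ g₀ i * ∑ l ∈ range i,
        2 ^ g₀ l * ((mu (slam F W ω) l).eval (rt F W ω) *
        (V (some (c l)) - dd (Q (ptr F J ω) l) (bt F ω) V)) - dd (G (ptr F J ω) i) (bt F ω) V =
        (dd (Q (ptr F J ω) i) (bt F ω) V - dd (G (ptr F J ω) i) (bt F ω) V) +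
        1 / 2 ^ g₀ i * ∑ l ∈ range i, 2 ^ g₀ l * ((mu (slam F W ω) l).eval (rt F W ω) *
        (V (some (c l)) - dd (Q (ptr F J ω) l) (bt F ω) V)) := by ring
    rw [e0]
    refine (abs_add_le _ _).trans ?_
    rw [abs_mul, abs_of_pos (show (0 : ℝ) < 1 / 2 ^ g₀ i by positivity)]
    refine (add_le_add (h2.trans (mul_le_mul_of_nonneg_left h3 (by positivity)))
      (mul_le_mul_of_nonneg_left h1 (by positivity))).trans ?_
    rw [← hN']
    have e1 : (2 : ℝ) ^ (C₁ * (Y + 1)) / 2 ^ g₀ i * (2 ^ (2 * Y) / 2 ^ q * N') +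
        1 / 2 ^ g₀ i * (2 ^ Y * ((1 + i * 2 ^ (C₁ * (Y + 1))) * (2 ^ (2 * Y) / 2 ^ q * N'))) =
        (2 ^ (C₁ * (Y + 1)) * 2 ^ (2 * Y) +
          2 ^ Y * ((1 + i * 2 ^ (C₁ * (Y + 1))) * 2 ^ (2 * Y))) / 2 ^ (g₀ i + q) * N' := by
      rw [pow_add 2 (g₀ i)]
      field_simp
    rw [e1]
    refine mul_le_mul_of_nonneg_right ?_ hN0
    rw [div_le_div_iff₀ (by positivity) (by positivity)]
    have e2 : (2 : ℝ) ^ (g i + q) ≤ 2 ^ Y * 2 ^ (g₀ i + q) := by
      rw [← pow_add]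
      have := (hg i (by omega)).1
      exact pow_le_pow_right₀ (by norm_num) (by omega)
    have e3 := pow_fin' C₁ i Y
    calc ((2 : ℝ) ^ (C₁ * (Y + 1)) * 2 ^ (2 * Y) +
          2 ^ Y * ((1 + i * 2 ^ (C₁ * (Y + 1))) * 2 ^ (2 * Y))) * 2 ^ (g i + q) ≤
        (2 ^ (C₁ * (Y + 1)) * 2 ^ (2 * Y) +
          2 ^ Y * ((1 + i * 2 ^ (C₁ * (Y + 1))) * 2 ^ (2 * Y))) * (2 ^ Y * 2 ^ (g₀ i + q)) :=
          mul_le_mul_of_nonneg_left e2 (by positivity)
      _ = ((2 ^ (C₁ * (Y + 1)) * 2 ^ (2 * Y) +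
          2 ^ Y * ((1 + i * 2 ^ (C₁ * (Y + 1))) * 2 ^ (2 * Y))) * 2 ^ Y) * 2 ^ (g₀ i + q) := by
          ring
      _ ≤ _ := mul_le_mul_of_nonneg_right e3 (by positivity)
  refine ⟨fun y => afp 0 0 (χ y), lam, ?_⟩
  rw [← hG']
  exact
    { ball := by
        have h1 := chok_win (hrq.mono (show i + 1 ≤ r + 1 by omega) (fun _ => le_rfl) le_rfl
          le_rfl) hwW hWJ
        exact h1
      thp := fun ω hω l hl => hrT.pos ω hω l (by omega)
      inc := fun ω hω b hb => by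
        refine ⟨hb.1.trans (inv_mono (by omega)), fun l hl => (hb.2 l hl).trans (inv_mono ?_)⟩
        show g l + q + nn ≤ g l + (q + nn)
        omega
      dlam := hl1
      nat := fun ω ν hω hν hpt l hl => by
        rw [hddG]
        refine (hR.vel ω ν hω hν hpt l (by omega)).trans ?_
        show _ ≤ 2 ^ ((C₁ + i + 8) * (Y + 1)) * 2 ^ (w + q) / 2 ^ (g l + q)
        rw [div_le_div_iff₀ (by positivity) (by positivity), ← pow_add, ← pow_add, ← pow_add,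
          ← pow_add]
        have := (hg l (by omega)).1
        have h1 : Y + Y ≤ (C₁ + i + 8) * (Y + 1) := by nlinarith
        exact pow_le_pow_right₀ (by norm_num) (by omega)
      vel := fun ω ν hω hν hpt => by
        obtain ⟨ω', hω', hpt', hχ'⟩ := hχ (ptr F J ω) ⟨ω, hω, rfl⟩
        rw [dd_afp, hχ', cv_cvg, ← hpt']
        exact hvel ω' ν hω' hν (hpt'.trans hpt)
      spa := fun ω hω V hV => by
        rw [hnrm]
        exact hspa ω hω V hV
      lnat := fun ω hω V hV => by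
        rw [hnrm, hddG]
        exact hlnat ω hω V hV
      shf := fun ω ν hω hν hpt V hV => by
        rw [dd_afp, dd_afp, sub_self, abs_zero]
        exact mul_nonneg (by positivity) (nrm_nonneg _ _ _ _ _ _ _) }

end Pool.END16
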